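import Pool.Agent.W823.QT.Stm

set_option autoImplicit false

namespace Pool.Agent.W371.QTFLIP

open MeasureTheory ProbabilityTheory Filter Topology Pool.Agent.W823.QT
open scoped ENNReal NNReal

theorem main : FLIP_T := by
  intro d q _ hq n H hH
  let f : ℕ → (Fin d → ℤ) → (Fin d → ℤ) := fun i x => if i < n then -x else x
  have hf : ∀ i, Measurable (f i) := by
    intro i
    by_cases h : i < n
    · have : f i = fun x => -x := by funext x; simp [f, h]
      rw [this]; exact measurable_neg
    · have : f i = fun x => x := by funext x; simp [f, h]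
      rw [this]; exact measurable_id
  have hfq : ∀ i, q.map (f i) = q := by
    intro i
    by_cases h : i < n
    · have : f i = fun x => -x := by funext x; simp [f, h]
      rw [this]; exact hq
    · have : f i = id := by funext x; simp [f, h]
      rw [this]; exact Measure.map_id
  have h1 := Measure.infinitePi_map_pi (μ := fun _ : ℕ => q) hf
  have h2 : (iid q).map (fun (a : ℕ → Fin d → ℤ) i => f i (a i)) = iid q := by
    unfold iid
    rw [h1]
    congr 1
    funext i
    exact hfq i
  have hm : Measurable (fun (a : ℕ → Fin d → ℤ) i => f i (a i)) :=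
    measurable_pi_lambda _ fun i => (hf i).comp (measurable_pi_apply i)
  have h3 : ∫⁻ a, H a ∂(iid q) = ∫⁻ a, H (fun i => f i (a i)) ∂(iid q) := by
    conv_lhs => rw [← h2]
    rw [lintegral_map hH hm]
  rw [h3]

end Pool.Agent.W371.QTFLIP
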