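import Pool.Agent.W988.RA.Defs

set_option autoImplicit false

namespace Pool.Agent.W371.RA_NUM

open Pool.Agent.W988.RA Filter

theorem key (n : ℕ) (l θ L s g pe : ℝ) (hn : 1 ≤ n) (hθ : 0 < θ) (hl : 0 < l) (hg : 0 < g)
    (hgl : g ≤ 2 * l) (hL : 0 < L) (hL2 : L ^ 2 = l / 4) (hs : 0 < s)
    (hs2 : s ^ 2 = 1 / (8 * n * g)) (hpe : 0 < pe)
    (hK : 1024 * 24 * 16 * 81 * 4 * pe ^ 5 ≤ θ ^ 4 * l) :
    Real.sqrt (24 * pe / n) ^ (n * n) * (2 ^ (n * (2 * n)) *
      (2 * (3 * pe / (L * Real.sqrt n)) ^ (n * (2 * n)))) <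
    1 / 2 * (4 / 9) ^ n * (2 / Real.sqrt n) ^ (n * (2 * n)) *
      (θ ^ (n * (2 * n)) * (1 / 2 * (2 * s) ^ (n * n))) := by
  have hn0 : (0 : ℝ) < n := by exact_mod_cast hn
  set A := Real.sqrt (24 * pe / n) with hA
  set B := 3 * pe / (L * Real.sqrt n) with hB
  have hA2 : A ^ 2 = 24 * pe / n := Real.sq_sqrt (by positivity)
  have hB2 : B ^ 2 = 9 * pe ^ 2 / (l / 4 * n) := by
    rw [hB, div_pow, mul_pow, mul_pow, Real.sq_sqrt hn0.le, hL2]; norm_num
  have hC2 : (2 / Real.sqrt n) ^ 2 = 4 / n := by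
    rw [div_pow, Real.sq_sqrt hn0.le]; norm_num
  have e1 : n * (2 * n) = 2 * (n * n) := by ring
  rw [e1]
  obtain ⟨N, hN⟩ : ∃ N, N = n * n := ⟨_, rfl⟩
  rw [← hN, pow_mul 2 2 N, pow_mul B 2 N, pow_mul (2 / Real.sqrt n) 2 N, pow_mul θ 2 N, hC2]
  have hA0 : 0 ≤ A := Real.sqrt_nonneg _
  set u := A * 4 * B ^ 2 with hu
  set v := (4 / (n : ℝ)) * θ ^ 2 * (2 * s) with hv
  have hu0 : 0 ≤ u := by positivity
  have hv0 : 0 < v := by positivity
  have h32 : 32 * u ≤ v := by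
    rw [← sq_le_sq₀ (by positivity) hv0.le]
    have e2 : (32 * u) ^ 2 = 1024 * (24 * pe / n) * 16 * (9 * pe ^ 2 / (l / 4 * n)) ^ 2 := by
      rw [hu, ← hA2, ← hB2]; ring
    have e3 : v ^ 2 = (16 / (n : ℝ) ^ 2) * θ ^ 4 * (4 * (1 / (8 * n * g))) := by
      rw [hv, ← hs2]; ring
    rw [e2, e3]
    have e4 : 1024 * (24 * pe / n) * 16 * (9 * pe ^ 2 / (l / 4 * n)) ^ 2 =
        (1024 * 24 * 16 * 81 * 16 * pe ^ 5 / l ^ 2) / (n : ℝ) ^ 3 := by
      field_simp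
      ring
    have e5 : (16 / (n : ℝ) ^ 2) * θ ^ 4 * (4 * (1 / (8 * n * g))) =
        (8 * θ ^ 4 / g) / (n : ℝ) ^ 3 := by
      field_simp
      ring
    rw [e4, e5]
    apply div_le_div_of_nonneg_right _ (by positivity)
    rw [div_le_div_iff₀ (by positivity) hg]
    have h1 : 1024 * 24 * 16 * 81 * 16 * pe ^ 5 * g ≤
        1024 * 24 * 16 * 81 * 16 * pe ^ 5 * (2 * l) :=
      mul_le_mul_of_nonneg_left hgl (by positivity)
    have h2 : (1024 * 24 * 16 * 81 * 4 * pe ^ 5) * (8 * l) ≤ (θ ^ 4 * l) * (8 * l) :=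
      mul_le_mul_of_nonneg_right hK (by positivity)
    nlinarith
  have h5 : (32 : ℝ) ^ N * u ^ N ≤ v ^ N := by
    rw [← mul_pow]; exact pow_le_pow_left₀ (by positivity) h32 _
  have h6 : 8 * (9 / 4 : ℝ) ^ n < 32 ^ N := by
    have h7 : (8 : ℝ) * (9 / 4) ^ n < 32 ^ n := by
      have h8 : (8 : ℝ) < (128 / 9) ^ n := by
        calc (8 : ℝ) < (128 / 9) ^ 1 := by norm_num
          _ ≤ _ := pow_le_pow_right₀ (by norm_num) hn
      have h9 : (32 : ℝ) ^ n = (128 / 9) ^ n * (9 / 4) ^ n := by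
        rw [← mul_pow]; norm_num
      rw [h9]
      exact mul_lt_mul_of_pos_right h8 (by positivity)
    refine h7.trans_le (pow_le_pow_right₀ (by norm_num) ?_)
    rw [hN]; nlinarith
  have h9 : (9 / 4 : ℝ) ^ n * (4 / 9) ^ n = 1 := by rw [← mul_pow]; norm_num
  have hvN : 0 < v ^ N := by positivity
  have h10 : 8 * u ^ N < (4 / 9 : ℝ) ^ n * v ^ N := by
    have h11 : (32 : ℝ) ^ N * (8 * u ^ N) ≤ 8 * v ^ N := by nlinarith
    have h12 : 8 * v ^ N < 32 ^ N * ((4 / 9 : ℝ) ^ n * v ^ N) := by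
      have h13 : 8 * v ^ N = (8 * (9 / 4 : ℝ) ^ n) * ((4 / 9 : ℝ) ^ n * v ^ N) := by
        calc 8 * v ^ N = 8 * ((9 / 4 : ℝ) ^ n * (4 / 9) ^ n) * v ^ N := by rw [h9]; ring
          _ = _ := by ring
      rw [h13]
      exact mul_lt_mul_of_pos_right h6 (by positivity)
    exact lt_of_mul_lt_mul_left (h11.trans_lt h12) (by positivity)
  have e7 : A ^ N * ((2 ^ 2) ^ N * (2 * (B ^ 2) ^ N)) = 2 * u ^ N := by
    rw [hu, mul_pow, mul_pow]; norm_num; ring
  have e8 : 1 / 2 * (4 / 9 : ℝ) ^ n * (4 / (n : ℝ)) ^ N *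
      ((θ ^ 2) ^ N * (1 / 2 * (2 * s) ^ N)) = 1 / 4 * ((4 / 9 : ℝ) ^ n * v ^ N) := by
    rw [hv, mul_pow, mul_pow]; ring
  rw [e7, e8]
  linarith

theorem result : S_NUM := by
  intro θ hθ
  set K : ℝ := 1024 * 24 * 16 * 81 * 4 * (Real.pi * Real.exp 1) ^ 5 / θ ^ 4 with hK
  have h1 : ∀ᶠ n : ℕ in atTop, K ≤ Real.log n :=
    (Real.tendsto_log_atTop.comp tendsto_natCast_atTop_atTop).eventually_ge_atTop K
  obtain ⟨n, hn1, hn2⟩ := (h1.and (eventually_ge_atTop (27 ^ 4))).exists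
  have hn27 : (27 ^ 4 : ℝ) ≤ n := by exact_mod_cast hn2
  have hn0 : (0 : ℝ) < n := by linarith [show (0 : ℝ) < 27 ^ 4 by norm_num]
  set l := Real.log n with hl
  have hl0 : 0 < l := Real.log_pos (by linarith [show (1 : ℝ) < 27 ^ 4 by norm_num])
  set g := Real.log (6 * (n : ℝ)) with hg
  have hgl : g ≤ 2 * l := by
    have : g = Real.log 6 + l := Real.log_mul (by norm_num) hn0.ne'
    rw [this]
    have h6 : Real.log 6 ≤ l := Real.log_le_log (by norm_num)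
      (by linarith [show (6 : ℝ) < 27 ^ 4 by norm_num])
    linarith
  have hg0 : 0 < g := Real.log_pos (by linarith [show (1 : ℝ) < 27 ^ 4 by norm_num])
  refine ⟨n, Real.sqrt l / 2, 1 / Real.sqrt (8 * n * g), by exact_mod_cast hn0, ?_, ?_, ?_, ?_,
    ?_, ?_⟩
  · have := Real.sqrt_pos.2 hl0; positivity
  · have : 0 < Real.sqrt (8 * n * g) := Real.sqrt_pos.2 (by positivity)
    positivity
  · rw [div_pow, Real.sq_sqrt hl0.le]
    have := Real.log_le_sub_one_of_pos hn0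
    linarith
  · rw [div_pow, Real.sq_sqrt hl0.le]
    have h27 : (27 : ℝ) ≤ Real.exp (l / 4) := by
      by_contra hc
      push Not at hc
      have h3 : Real.exp (l / 4) ^ 4 < 27 ^ 4 :=
        pow_lt_pow_left₀ hc (Real.exp_pos _).le (by norm_num)
      have h4 : Real.exp (l / 4) ^ 4 = n := by
        rw [← Real.exp_nat_mul]
        rw [show ((4 : ℕ) : ℝ) * (l / 4) = l by push_cast; ring, hl, Real.exp_log hn0]
      linarith
    have h5 : Real.exp (3 * (l / 2 ^ 2)) * Real.exp (l / 4) = n := by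
      rw [← Real.exp_add, show 3 * (l / 2 ^ 2) + l / 4 = l by ring, hl, Real.exp_log hn0]
    have h6 : Real.exp (3 * (l / 2 ^ 2)) * 27 ≤ n := by
      rw [← h5]
      exact mul_le_mul_of_nonneg_left h27 (Real.exp_pos _).le
    linarith
  · rw [div_pow, Real.sq_sqrt (by positivity), one_pow]
    apply le_of_eq
    have : Real.log (6 * (n : ℝ)) = g := rfl
    rw [this]
    field_simp
  · have := key n l θ (Real.sqrt l / 2) (1 / Real.sqrt (8 * n * g)) g (Real.pi * Real.exp 1)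
      (by exact_mod_cast hn0) hθ hl0 hg0 hgl (by have := Real.sqrt_pos.2 hl0; positivity)
      (by rw [div_pow, Real.sq_sqrt hl0.le]; norm_num)
      (by
        have : 0 < Real.sqrt (8 * n * g) := Real.sqrt_pos.2 (by positivity)
        positivity)
      (by rw [div_pow, Real.sq_sqrt (by positivity), one_pow]) (by positivity)
      (by
        rw [hK, div_le_iff₀ (by positivity)] at hn1
        linarith)
    rw [show 24 * Real.pi * Real.exp 1 / (n : ℝ) = 24 * (Real.pi * Real.exp 1) / n by ring,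
      show 3 * Real.pi * Real.exp 1 / (Real.sqrt l / 2 * Real.sqrt n) =
        3 * (Real.pi * Real.exp 1) / (Real.sqrt l / 2 * Real.sqrt n) by ring]
    exact this

end Pool.Agent.W371.RA_NUM
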